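import Pool.Agent.N437.SQ.Stm

/-! Leaf SQ/F4 for helper437: the numerical inequality (helper219). -/

set_option autoImplicit false

namespace Pool.Agent.N219.SQ

open Finset Pool.Agent.N437.SQ

private lemma low_card (q L s : ℕ) (hq : 2 ≤ q) (hs : 1 ≤ s) (hqs : q ^ 2 * s ≤ q ^ (3 ^ L)) :
    (2 : ℝ) ^ (low q L s).card ≤ ((q ^ (3 ^ L) : ℕ) : ℝ) / s := by
  have hs0 : (0 : ℝ) < s := by exact_mod_cast hs
  rw [le_div_iff₀ hs0]
  rcases Nat.eq_zero_or_pos (low q L s).card with h0 | h0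
  · rw [h0]
    have h1 : 1 * s ≤ q ^ 2 * s := Nat.mul_le_mul_right s (Nat.one_le_pow _ _ (by omega))
    have h2 : s ≤ q ^ (3 ^ L) := by omega
    simpa using (by exact_mod_cast h2 : (s : ℝ) ≤ ((q ^ (3 ^ L) : ℕ) : ℝ))
  · have h1 : ∃ i ∈ low q L s, (low q L s).card ≤ (i : ℕ) + 1 := by
      by_contra hcon
      push Not at hcon
      have h2 : (low q L s).card ≤ (Finset.range ((low q L s).card - 1)).card := by
        apply Finset.card_le_card_of_injOn (fun i : Fin L => (i : ℕ))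
        · intro i hi
          have := hcon i hi
          simp only [Finset.coe_range, Set.mem_Iio]
          omega
        · intro i _ j _ hij
          exact Fin.ext hij
      rw [Finset.card_range] at h2
      omega
    obtain ⟨i, hi, hl⟩ := h1
    unfold low at hi
    rw [Finset.mem_filter] at hi
    have h3 := hi.2
    unfold D at h3
    have h4 : (i : ℕ) < 3 ^ (i : ℕ) := Nat.lt_pow_self (by norm_num)
    have h5 : 2 ^ (low q L s).card ≤ (q ^ (3 ^ (i : ℕ))) ^ 2 := by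
      rw [← pow_mul]
      calc 2 ^ (low q L s).card ≤ 2 ^ (3 ^ (i : ℕ) * 2) :=
            Nat.pow_le_pow_right (by norm_num) (by omega)
        _ ≤ q ^ (3 ^ (i : ℕ) * 2) := Nat.pow_le_pow_left hq _
    have h6 : 2 ^ (low q L s).card * s ≤ q ^ (3 ^ L) :=
      le_trans (Nat.mul_le_mul_right s h5) h3
    exact_mod_cast h6

private lemma expb : Real.exp 1 * Real.exp 1 ≤ 9 := by
  have h := Real.exp_one_lt_d9
  have h0 := Real.exp_pos 1
  nlinarith

theorem t_F4 : S_F4 := by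
  intro C hC
  refine ⟨40 * (2 * C) ^ (8 * C + 8) + 2, ?_⟩
  intro q L s hq hs hqs
  have hq2 : 2 ≤ q := le_trans (Nat.le_add_left 2 _) hq
  have hq40 : 40 * (2 * (C : ℝ)) ^ (8 * C + 8) ≤ q := by
    have : 40 * (2 * C) ^ (8 * C + 8) ≤ q := le_trans (Nat.le_add_right _ 2) hq
    exact_mod_cast this
  have h2l := low_card q L s hq2 hs hqs
  have hs0 : (0 : ℝ) < s := by exact_mod_cast hs
  have hn_ge : (q : ℝ) ^ 2 * s ≤ ((q ^ (3 ^ L) : ℕ) : ℝ) := by exact_mod_cast hqs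
  have hnpos : (0 : ℝ) < ((q ^ (3 ^ L) : ℕ) : ℝ) := by
    have : 0 < q ^ (3 ^ L) := Nat.pow_pos (by omega)
    exact_mod_cast this
  generalize ((q ^ (3 ^ L) : ℕ) : ℝ) = n at *
  have hy : (q : ℝ) ^ 2 ≤ n / s := by rw [le_div_iff₀ hs0]; exact hn_ge
  have hinv : (s : ℝ) / n = (n / s)⁻¹ := by rw [inv_div]
  rw [hinv]
  generalize n / s = y at *
  generalize (low q L s).card = l at *
  have hq2r : (2 : ℝ) ≤ q := by exact_mod_cast hq2
  have hyq : (q : ℝ) ≤ y := by nlinarith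
  have hy1 : (1 : ℝ) ≤ y := by linarith
  have hy0 : (0 : ℝ) < y := by linarith
  have hsq : Real.sqrt (y⁻¹) ^ (8 * C + 8) = (y⁻¹) ^ (4 * C + 4) := by
    rw [show 8 * C + 8 = 2 * (4 * C + 4) by ring, pow_mul, Real.sq_sqrt (by positivity)]
  have hX : (y * Real.exp 1) * (y ^ (2 * C) * Real.exp 1) *
      (2 ^ l * (2 * C * Real.sqrt (y⁻¹)) ^ (8 * C + 8)) ≤ 1 / 4 := by
    rw [mul_pow (2 * (C : ℝ)), hsq]
    have hC0 : (0 : ℝ) ≤ (2 * (C : ℝ)) ^ (8 * C + 8) := by positivity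
    have e1 : (y * Real.exp 1) * (y ^ (2 * C) * Real.exp 1) *
        (y * ((2 * (C : ℝ)) ^ (8 * C + 8) * (y⁻¹) ^ (4 * C + 4)))
        = (Real.exp 1 * Real.exp 1) * (2 * (C : ℝ)) ^ (8 * C + 8) * (y⁻¹) ^ (2 * C + 2) := by
      have e2 : y ^ (2 * C + 2) * (y⁻¹) ^ (2 * C + 2) = 1 := by
        rw [← mul_pow, mul_inv_cancel₀ hy0.ne', one_pow]
      have e3 : (y⁻¹) ^ (4 * C + 4) = (y⁻¹) ^ (2 * C + 2) * (y⁻¹) ^ (2 * C + 2) := by
        rw [← pow_add]; congr 1; ring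
      have e4 : y * y ^ (2 * C) * y = y ^ (2 * C + 2) := by ring
      rw [e3]
      calc (y * Real.exp 1) * (y ^ (2 * C) * Real.exp 1) *
            (y * ((2 * (C : ℝ)) ^ (8 * C + 8) * ((y⁻¹) ^ (2 * C + 2) * (y⁻¹) ^ (2 * C + 2))))
          = (Real.exp 1 * Real.exp 1) * (2 * (C : ℝ)) ^ (8 * C + 8) * (y⁻¹) ^ (2 * C + 2) *
            ((y * y ^ (2 * C) * y) * (y⁻¹) ^ (2 * C + 2)) := by ring
        _ = _ := by rw [e4, e2, mul_one]
    have s1 : (y * Real.exp 1) * (y ^ (2 * C) * Real.exp 1) *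
        (2 ^ l * ((2 * (C : ℝ)) ^ (8 * C + 8) * (y⁻¹) ^ (4 * C + 4)))
        ≤ (y * Real.exp 1) * (y ^ (2 * C) * Real.exp 1) *
        (y * ((2 * (C : ℝ)) ^ (8 * C + 8) * (y⁻¹) ^ (4 * C + 4))) := by
      have := Real.exp_pos 1
      apply mul_le_mul_of_nonneg_left _ (by positivity)
      apply mul_le_mul_of_nonneg_right h2l (by positivity)
    refine s1.trans ?_
    rw [e1]
    have s2 : (y⁻¹) ^ (2 * C + 2) ≤ y⁻¹ := by
      have hi1 : y⁻¹ ≤ 1 := inv_le_one_of_one_le₀ hy1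
      have hi0 : 0 ≤ y⁻¹ := by positivity
      calc (y⁻¹) ^ (2 * C + 2) ≤ (y⁻¹) ^ 1 := pow_le_pow_of_le_one hi0 hi1 (by omega)
        _ = y⁻¹ := pow_one _
    have s3 : (Real.exp 1 * Real.exp 1) * (2 * (C : ℝ)) ^ (8 * C + 8) * (y⁻¹) ^ (2 * C + 2)
        ≤ 9 * (2 * (C : ℝ)) ^ (8 * C + 8) * y⁻¹ := by
      have := Real.exp_pos 1
      apply mul_le_mul _ s2 (by positivity) (by positivity)
      exact mul_le_mul_of_nonneg_right expb hC0
    refine s3.trans ?_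
    rw [← div_eq_mul_inv, div_le_iff₀ hy0]
    linarith
  have hfin : (y ^ s * Real.exp s) * (y ^ (2 * C * s) * Real.exp s) *
      (2 ^ l * (2 * C * Real.sqrt (y⁻¹)) ^ (8 * C + 8)) ^ s
      = ((y * Real.exp 1) * (y ^ (2 * C) * Real.exp 1) *
      (2 ^ l * (2 * C * Real.sqrt (y⁻¹)) ^ (8 * C + 8))) ^ s := by
    rw [← Real.exp_one_pow s, pow_mul y (2 * C) s]
    rw [mul_pow (y * Real.exp 1 * (y ^ (2 * C) * Real.exp 1)), mul_pow (y * Real.exp 1),
      mul_pow y, mul_pow (y ^ (2 * C))]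
  rw [hfin]
  have := Real.exp_pos 1
  exact pow_le_pow_left₀ (by positivity) hX s

end Pool.Agent.N219.SQ
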